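import Mathlib

set_option autoImplicit false

namespace Pool.Agent.Results.MP_b9e9b1_co.RigidCounterexample

/-- `A` is a maximally diameter-`r` subset of the cube `Q_n = {0,1}^n` with the Hamming distance:
its diameter is `r`, and adding any further point of the cube makes the diameter larger. -/
def MaximallyDiameter {n : ℕ} (A : Finset (Fin n → Bool)) (r : ℕ) : Prop :=
  (∀ x ∈ A, ∀ y ∈ A, hammingDist x y ≤ r) ∧ (∃ x ∈ A, ∃ y ∈ A, hammingDist x y = r) ∧
    ∀ x, x ∉ A → ∃ y ∈ A, r < hammingDist x y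

/-- `A` (of diameter `r`) is rigid: every point of `A` has a point of `A` at distance `r`. -/
def Rigid {n : ℕ} (A : Finset (Fin n → Bool)) (r : ℕ) : Prop :=
  ∀ x ∈ A, ∃ y ∈ A, hammingDist x y = r

/-- maximally diameter-`r` and rigid -/
def Good {n : ℕ} (A : Finset (Fin n → Bool)) (r : ℕ) : Prop := MaximallyDiameter A r ∧ Rigid A r

theorem hammingDist_eq_sum {n : ℕ} (x y : Fin n → Bool) :
    hammingDist x y = ∑ i, if x i ≠ y i then 1 else 0 := by
  unfold hammingDist
  rw [Finset.card_filter]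

theorem hammingDist_append {n m : ℕ} (x x' : Fin n → Bool) (y y' : Fin m → Bool) :
    hammingDist (Fin.append x y) (Fin.append x' y') = hammingDist x x' + hammingDist y y' := by
  rw [hammingDist_eq_sum, hammingDist_eq_sum, hammingDist_eq_sum, Fin.sum_univ_add]
  simp only [Fin.append_left, Fin.append_right]

/-- the product of two subsets of cubes -/
def prod {n m : ℕ} (A : Finset (Fin n → Bool)) (B : Finset (Fin m → Bool)) :
    Finset (Fin (n + m) → Bool) :=
  (A ×ˢ B).image (fun p => Fin.append p.1 p.2)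

theorem mem_prod {n m : ℕ} (A : Finset (Fin n → Bool)) (B : Finset (Fin m → Bool))
    (x : Fin n → Bool) (y : Fin m → Bool) : Fin.append x y ∈ prod A B ↔ x ∈ A ∧ y ∈ B := by
  unfold prod
  rw [Finset.mem_image]
  constructor
  · rintro ⟨⟨a, b⟩, h, he⟩
    rw [Finset.mem_product] at h
    have h1 : a = x := by
      funext i
      have := congrFun he (Fin.castAdd m i)
      simpa using this
    have h2 : b = y := by
      funext i
      have := congrFun he (Fin.natAdd n i)
      simpa using this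
    rw [← h1, ← h2]; exact h
  · rintro ⟨h1, h2⟩
    exact ⟨(x, y), Finset.mem_product.mpr ⟨h1, h2⟩, rfl⟩

theorem exists_append {n m : ℕ} (z : Fin (n + m) → Bool) :
    ∃ (x : Fin n → Bool) (y : Fin m → Bool), z = Fin.append x y :=
  ⟨fun i => z (Fin.castAdd m i), fun i => z (Fin.natAdd n i), (Fin.append_castAdd_natAdd).symm⟩

theorem card_prod {n m : ℕ} (A : Finset (Fin n → Bool)) (B : Finset (Fin m → Bool)) :
    (prod A B).card = A.card * B.card := by
  unfold prod
  rw [Finset.card_image_of_injective, Finset.card_product]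
  rintro ⟨a, b⟩ ⟨a', b'⟩ h
  have h1 : a = a' := by
    funext i
    have := congrFun h (Fin.castAdd m i)
    simpa using this
  have h2 : b = b' := by
    funext i
    have := congrFun h (Fin.natAdd n i)
    simpa using this
  rw [h1, h2]

/-- In a good set every point of the cube has eccentricity at least `r`. -/
theorem Good.ecc {n r : ℕ} {A : Finset (Fin n → Bool)} (h : Good A r) (x : Fin n → Bool) :
    ∃ y ∈ A, r ≤ hammingDist x y := by
  by_cases hx : x ∈ A
  · obtain ⟨y, hy, h'⟩ := h.2 x hx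
    exact ⟨y, hy, h'.ge⟩
  · obtain ⟨y, hy, h'⟩ := h.1.2.2 x hx
    exact ⟨y, hy, h'.le⟩

theorem Good.prod {n m r s : ℕ} {A : Finset (Fin n → Bool)} {B : Finset (Fin m → Bool)}
    (hA : Good A r) (hB : Good B s) : Good (prod A B) (r + s) := by
  refine ⟨⟨?_, ?_, ?_⟩, ?_⟩
  · intro z hz z' hz'
    obtain ⟨x, y, rfl⟩ := exists_append z
    obtain ⟨x', y', rfl⟩ := exists_append z'
    rw [mem_prod] at hz hz'
    rw [hammingDist_append]
    exact Nat.add_le_add (hA.1.1 x hz.1 x' hz'.1) (hB.1.1 y hz.2 y' hz'.2)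
  · obtain ⟨x, hx, x', hx', h1⟩ := hA.1.2.1
    obtain ⟨y, hy, y', hy', h2⟩ := hB.1.2.1
    refine ⟨Fin.append x y, (mem_prod _ _ _ _).mpr ⟨hx, hy⟩, Fin.append x' y',
      (mem_prod _ _ _ _).mpr ⟨hx', hy'⟩, ?_⟩
    rw [hammingDist_append, h1, h2]
  · intro z hz
    obtain ⟨x, y, rfl⟩ := exists_append z
    rw [mem_prod, not_and_or] at hz
    rcases hz with hz | hz
    · obtain ⟨x', hx', h1⟩ := hA.1.2.2 x hz
      obtain ⟨y', hy', h2⟩ := hB.ecc y
      refine ⟨Fin.append x' y', (mem_prod _ _ _ _).mpr ⟨hx', hy'⟩, ?_⟩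
      rw [hammingDist_append]; omega
    · obtain ⟨x', hx', h1⟩ := hA.ecc x
      obtain ⟨y', hy', h2⟩ := hB.1.2.2 y hz
      refine ⟨Fin.append x' y', (mem_prod _ _ _ _).mpr ⟨hx', hy'⟩, ?_⟩
      rw [hammingDist_append]; omega
  · intro z hz
    obtain ⟨x, y, rfl⟩ := exists_append z
    rw [mem_prod] at hz
    obtain ⟨x', hx', h1⟩ := hA.2 x hz.1
    obtain ⟨y', hy', h2⟩ := hB.2 y hz.2
    refine ⟨Fin.append x' y', (mem_prod _ _ _ _).mpr ⟨hx', hy'⟩, ?_⟩
    rw [hammingDist_append, h1, h2]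

/-- the whole cube `Q_m` -/
theorem good_univ (m : ℕ) : Good (Finset.univ : Finset (Fin m → Bool)) m := by
  have h : ∀ x : Fin m → Bool, hammingDist x (fun i => !x i) = m := by
    intro x
    rw [hammingDist_eq_sum]
    have : ∀ i, (if x i ≠ !x i then 1 else 0) = 1 := by
      intro i; cases x i <;> rfl
    rw [Finset.sum_congr rfl (fun i _ => this i)]
    simp
  refine ⟨⟨?_, ?_, ?_⟩, ?_⟩
  · intro x _ y _
    simpa using hammingDist_le_card_fintype (x := x) (y := y)
  · exact ⟨fun _ => true, Finset.mem_univ _, _, Finset.mem_univ _, h _⟩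
  · intro x hx; exact (hx (Finset.mem_univ x)).elim
  · intro x _; exact ⟨_, Finset.mem_univ _, h x⟩

/-- a single point -/
theorem good_single (l : ℕ) (q : Fin l → Bool) : Good ({q} : Finset (Fin l → Bool)) 0 := by
  refine ⟨⟨?_, ?_, ?_⟩, ?_⟩
  · intro x hx y hy
    rw [Finset.mem_singleton] at hx hy
    rw [hx, hy, hammingDist_self]
  · exact ⟨q, Finset.mem_singleton_self q, q, Finset.mem_singleton_self q, hammingDist_self q⟩
  · intro x hx
    rw [Finset.mem_singleton] at hx
    exact ⟨q, Finset.mem_singleton_self q, hammingDist_pos.mpr hx⟩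
  · intro x hx
    rw [Finset.mem_singleton] at hx
    exact ⟨q, Finset.mem_singleton_self q, by rw [hx, hammingDist_self]⟩

/-- the 37 points, as bit masks -/
def L : List ℕ := [0, 23, 31, 39, 47, 51, 53, 54, 55, 59, 61, 62, 71, 79, 83, 85, 86, 87, 91, 93,
  94, 99, 101, 102, 103, 107, 109, 110, 113, 114, 115, 116, 117, 118, 121, 122, 124]

def f (a : ℕ) : Fin 7 → Bool := fun i => a.testBit i

def bit (a b i : ℕ) : ℕ := if a.testBit i ≠ b.testBit i then 1 else 0

def d7 (a b : ℕ) : ℕ :=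
  bit a b 0 + bit a b 1 + bit a b 2 + bit a b 3 + bit a b 4 + bit a b 5 + bit a b 6

theorem d7_eq (a b : ℕ) : hammingDist (f a) (f b) = d7 a b := by
  rw [hammingDist_eq_sum, Fin.sum_univ_seven]
  rfl

/-- the finite verification -/
def check : Bool :=
  (L.all fun a => (L.all fun b => decide (d7 a b ≤ 5)) && (L.any fun b => d7 a b == 5)) &&
  ((List.range 128).all fun a => L.contains a || (L.any fun b => decide (5 < d7 a b)))

theorem check_true : check = true := by decide +kernel

theorem exists_f (x : Fin 7 → Bool) : ∃ a, a < 128 ∧ f a = x := by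
  refine ⟨(x 0).toNat + 2 * (x 1).toNat + 4 * (x 2).toNat + 8 * (x 3).toNat + 16 * (x 4).toNat
    + 32 * (x 5).toNat + 64 * (x 6).toNat, ?_, ?_⟩
  · have : ∀ b : Bool, b.toNat ≤ 1 := by decide
    have h0 := this (x 0)
    have h1 := this (x 1)
    have h2 := this (x 2)
    have h3 := this (x 3)
    have h4 := this (x 4)
    have h5 := this (x 5)
    have h6 := this (x 6)
    omega
  · funext i
    have key : ∀ a b c d e g h : Bool, ∀ i : Fin 7,
        ((a.toNat + 2 * b.toNat + 4 * c.toNat + 8 * d.toNat + 16 * e.toNat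
          + 32 * g.toNat + 64 * h.toNat).testBit i) = ![a, b, c, d, e, g, h] i := by decide
    have := key (x 0) (x 1) (x 2) (x 3) (x 4) (x 5) (x 6) i
    unfold f
    rw [this]
    fin_cases i <;> rfl

/-- the 37-point subset of `Q_7` -/
def A7 : Finset (Fin 7 → Bool) := (L.map f).toFinset

theorem mem_A7 (x : Fin 7 → Bool) : x ∈ A7 ↔ ∃ a ∈ L, f a = x := by
  unfold A7
  rw [List.mem_toFinset, List.mem_map]

theorem good_A7 : Good A7 5 := by
  have h := check_true
  unfold check at h
  rw [Bool.and_eq_true, List.all_eq_true, List.all_eq_true] at h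
  obtain ⟨h1, h2⟩ := h
  have hd : ∀ a ∈ L, ∀ b ∈ L, d7 a b ≤ 5 := by
    intro a ha b hb
    have := h1 a ha
    rw [Bool.and_eq_true, List.all_eq_true] at this
    exact of_decide_eq_true (this.1 b hb)
  have hr : ∀ a ∈ L, ∃ b ∈ L, d7 a b = 5 := by
    intro a ha
    have := h1 a ha
    rw [Bool.and_eq_true, List.any_eq_true] at this
    obtain ⟨b, hb, h⟩ := this.2
    exact ⟨b, hb, by simpa using h⟩
  have hm : ∀ a, a < 128 → a ∉ L → ∃ b ∈ L, 5 < d7 a b := by
    intro a ha haL
    have := h2 a (List.mem_range.mpr ha)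
    rw [Bool.or_eq_true, List.any_eq_true] at this
    rcases this with h | ⟨b, hb, h⟩
    · exact (haL (by simpa using h)).elim
    · exact ⟨b, hb, of_decide_eq_true h⟩
  have hrig : Rigid A7 5 := by
    intro x hx
    obtain ⟨a, ha, rfl⟩ := (mem_A7 x).mp hx
    obtain ⟨b, hb, h⟩ := hr a ha
    exact ⟨f b, (mem_A7 _).mpr ⟨b, hb, rfl⟩, by rw [d7_eq, h]⟩
  refine ⟨⟨?_, ?_, ?_⟩, hrig⟩
  · intro x hx y hy
    obtain ⟨a, ha, rfl⟩ := (mem_A7 x).mp hx
    obtain ⟨b, hb, rfl⟩ := (mem_A7 y).mp hy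
    rw [d7_eq]; exact hd a ha b hb
  · have h0 : f 0 ∈ A7 := (mem_A7 _).mpr ⟨0, by decide, rfl⟩
    obtain ⟨y, hy, h⟩ := hrig _ h0
    exact ⟨f 0, h0, y, hy, h⟩
  · intro x hx
    obtain ⟨a, ha, rfl⟩ := exists_f x
    have haL : a ∉ L := fun h => hx ((mem_A7 _).mpr ⟨a, h, rfl⟩)
    obtain ⟨b, hb, h⟩ := hm a ha haL
    exact ⟨f b, (mem_A7 _).mpr ⟨b, hb, rfl⟩, by rw [d7_eq]; exact h⟩

theorem f_injOn : ∀ a < 128, ∀ b < 128, f a = f b → a = b := by
  intro a ha b hb h
  apply Nat.eq_of_testBit_eq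
  intro i
  by_cases hi : i < 7
  · exact congrFun h ⟨i, hi⟩
  · have h7 : 2 ^ 7 ≤ 2 ^ i := Nat.pow_le_pow_right (by norm_num) (by omega)
    rw [Nat.testBit_lt_two_pow (by omega), Nat.testBit_lt_two_pow (by omega)]

theorem card_A7 : A7.card = 37 := by
  unfold A7
  rw [List.toFinset_card_of_nodup]
  · rfl
  · apply List.Nodup.map_on
    · intro a ha b hb h
      have hlt : ∀ a ∈ L, a < 128 := by decide
      exact f_injOn a (hlt a ha) b (hlt b hb) h
    · decide

/-- powers of the 37-point set -/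
theorem power (k : ℕ) : ∃ A : Finset (Fin (7 * k) → Bool), Good A (5 * k) ∧ A.card = 37 ^ k := by
  induction k with
  | zero => exact ⟨{fun _ => true}, good_single 0 _, by simp⟩
  | succ k ih =>
    obtain ⟨A, hA, hc⟩ := ih
    exact ⟨prod A A7, hA.prod good_A7, by rw [card_prod, hc, card_A7, pow_succ]⟩

/-- **Rigid maximally diameter-`r` sets with more than `2^r` points.**
For all `k, m, l` there is a rigid, maximally diameter-`r` subset of the cube `Q_n`, where
`r = 5k+m` and `n = 7k+m+l`, with exactly `37^k * 2^m` points; for `k ≥ 1` this is more than `2^r`.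
In particular (`k = 1`), for all `r ≥ 5` and `n ≥ r + 2` some rigid maximally diameter-`r` subset
of `Q_n` has more than `2^r` points. -/
theorem result :
    ∀ k m l : ℕ, ∃ A : Finset (Fin (7 * k + m + l) → Bool),
      MaximallyDiameter A (5 * k + m) ∧ Rigid A (5 * k + m) ∧ A.card = 37 ^ k * 2 ^ m ∧
        (1 ≤ k → 2 ^ (5 * k + m) < A.card) := by
  intro k m l
  obtain ⟨A, hA, hc⟩ := power k
  have h := (hA.prod (good_univ m)).prod (good_single l (fun _ => true))
  have hcard : (prod (prod A (Finset.univ : Finset (Fin m → Bool)))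
      ({fun _ => true} : Finset (Fin l → Bool))).card = 37 ^ k * 2 ^ m := by
    rw [card_prod, card_prod, hc, Finset.card_singleton, Finset.card_univ]
    simp
  refine ⟨_, h.1, h.2, hcard, ?_⟩
  intro hk
  rw [hcard, pow_add, pow_mul]
  apply Nat.mul_lt_mul_of_pos_right _ (by positivity)
  exact Nat.pow_lt_pow_left (by norm_num) (by omega)

end Pool.Agent.Results.MP_b9e9b1_co.RigidCounterexample
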